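import Mathlib
import Pool.Agent.Q15.Translation

set_option autoImplicit false

/-!
# Infinitely many colliding parameters although `f(α₁) ≠ f(α₂)`

`f(x) = x + (x ^ p - x) ^ (p + 1)` is not additive and commutes with the translations by `F_p`.
For a transcendental `t` and `α₁ = t`, `α₂ = t + 1`, `β = t`, every root `λ` of
`f_λ^ℓ(t) = t + 1` is a colliding parameter, and the union over the primes `ℓ` is infinite.
-/

namespace Pool.Agent.Results.MP_a5410e_nt.InfiniteCollision

open Polynomial Pool.Agent.Q15.Translation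

/-- The set `C_f(α₁, α₂; β)` of parameters `λ` in `K` for which `β` is in the strict forward orbits
of `α₁` and of `α₂` under `z ↦ f(z) + λ`. -/
def collision {K : Type*} [Field K] (f : K[X]) (α₁ α₂ β : K) : Set K :=
  {l | ∃ m n : ℕ, 1 ≤ m ∧ 1 ≤ n ∧ (fun z => f.eval z + l)^[m] α₁ = β ∧
    (fun z => f.eval z + l)^[n] α₂ = β}

/-- `g` is additive as a function. (Over an infinite field this is the same as
`g(x + y) = g(x) + g(y)` as polynomials in `x` and `y`.) -/
def IsAdditive {K : Type*} [Field K] (g : K[X]) : Prop :=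
  ∀ x y : K, g.eval (x + y) = g.eval x + g.eval y

/-- The polynomial `x + (x ^ p - x) ^ (p + 1)`. -/
noncomputable def G (K : Type*) [Field K] (p : ℕ) : K[X] :=
  X + (X ^ p - X) ^ (p + 1)

section

variable {K : Type*} [Field K]

theorem G_eval (p : ℕ) (x : K) : (G K p).eval x = x + (x ^ p - x) ^ (p + 1) := by
  simp [G]

theorem G_map {k : Type*} [Field k] (φ : k →+* K) (p : ℕ) : (G k p).map φ = G K p := by
  simp [G]

theorem natDegree_frob {p : ℕ} (hp : 2 ≤ p) : (X ^ p - X : K[X]).natDegree = p := by
  rw [natDegree_sub_eq_left_of_natDegree_lt, natDegree_X_pow]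
  rw [natDegree_X_pow, natDegree_X]
  omega

theorem G_natDegree {p : ℕ} (hp : 2 ≤ p) : (G K p).natDegree = p * (p + 1) := by
  have h3 : ((X ^ p - X : K[X]) ^ (p + 1)).natDegree = p * (p + 1) := by
    rw [natDegree_pow, natDegree_frob hp, mul_comm]
  rw [G, natDegree_add_eq_right_of_natDegree_lt, h3]
  rw [h3, natDegree_X]
  nlinarith

variable (p : ℕ) [Fact p.Prime] [CharP K p]

/-- The additive group of solutions of `v ^ p = v`. -/
def V (K : Type*) [Field K] (p : ℕ) [Fact p.Prime] [CharP K p] : AddSubgroup K where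
  carrier := {v | v ^ p = v}
  add_mem' := by
    intro a b ha hb
    simp only [Set.mem_ofPred_eq] at *
    rw [add_pow_char a b p, ha, hb]
  zero_mem' := by
    simp only [Set.mem_ofPred_eq]
    exact zero_pow (Fact.out : p.Prime).ne_zero
  neg_mem' := by
    intro a ha
    simp only [Set.mem_ofPred_eq] at *
    rw [neg_eq_zero_sub, sub_pow_char 0 a, ha, zero_pow (Fact.out : p.Prime).ne_zero]

theorem mem_V (v : K) : v ∈ V K p ↔ v ^ p = v := Iff.rfl

theorem natCast_mem_V (a : ℕ) : (a : K) ∈ V K p := by
  rw [mem_V]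
  have h3 : (frobenius K p) (a : K) = a := map_natCast _ a
  rwa [frobenius_def] at h3

theorem G_translate (l x v : K) (hv : v ∈ V K p) :
    (G K p).eval (x + v) + l = (G K p).eval x + l + v := by
  rw [mem_V] at hv
  rw [G_eval, G_eval, add_pow_char x v p, hv]
  ring

theorem G_not_additive [IsAlgClosed K] : ¬ IsAdditive (G K p) := by
  intro h
  have hp : 2 ≤ p := (Fact.out : p.Prime).two_le
  -- `x ↦ x ^ p - x` is surjective
  have hsurj : ∀ u : K, ∃ x : K, x ^ p - x = u := by
    intro u
    have hd : (X ^ p - X - C u : K[X]).natDegree = p := by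
      rw [natDegree_sub_C, natDegree_frob hp]
    have hne : (X ^ p - X - C u : K[X]).degree ≠ 0 := by
      intro h0
      have h5 := natDegree_eq_of_degree_eq_some (n := 0) h0
      rw [hd] at h5
      omega
    obtain ⟨x, hx⟩ := IsAlgClosed.exists_root _ hne
    refine ⟨x, ?_⟩
    simpa [IsRoot, sub_eq_zero] using hx
  -- some `u` has `u ^ p + u ≠ 0`
  have hu : ∃ u : K, u ^ p + u ≠ 0 := by
    by_contra hcon
    push Not at hcon
    have hd : (X ^ p + X : K[X]).natDegree = p := by
      rw [natDegree_add_eq_left_of_natDegree_lt, natDegree_X_pow]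
      rw [natDegree_X_pow, natDegree_X]
      omega
    have h0 : (X ^ p + X : K[X]) = 0 := by
      have : Infinite K := inferInstance
      refine Polynomial.funext fun u => ?_
      simpa using hcon u
    rw [h0, natDegree_zero] at hd
    omega
  obtain ⟨u, hu⟩ := hu
  obtain ⟨x, hx⟩ := hsurj u
  obtain ⟨y, hy⟩ := hsurj 1
  have h3 := h x y
  rw [G_eval, G_eval, G_eval, add_pow_char x y p] at h3
  have h4 : x ^ p + y ^ p - (x + y) = u + 1 := by
    rw [← hx, ← hy]
    ring
  rw [h4, hx, hy, pow_succ (u + 1) p, add_pow_char u 1 p] at h3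
  apply hu
  linear_combination h3

/-! ### The iterates as polynomials in the parameter -/

/-- `P_k(λ) = f_λ^k(τ)`. -/
noncomputable def P (K : Type*) [Field K] (p : ℕ) (τ : K) : ℕ → K[X]
  | 0 => C τ
  | k + 1 => (G K p).comp (P K p τ k) + X

omit [Fact p.Prime] [CharP K p] in
theorem P_eval (τ l : K) (k : ℕ) :
    (P K p τ k).eval l = (fun z => (G K p).eval z + l)^[k] τ := by
  induction k with
  | zero => simp [P]
  | succ k ih => rw [Function.iterate_succ_apply', ← ih, P, eval_add, eval_comp, eval_X]

omit [CharP K p] in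
theorem P_natDegree (τ : K) (k : ℕ) : (P K p τ (k + 1)).natDegree = (p * (p + 1)) ^ k := by
  have hp : 2 ≤ p := (Fact.out : p.Prime).two_le
  induction k with
  | zero =>
    have h1 : P K p τ (0 + 1) = X + C ((G K p).eval τ) := by
      simp [P, add_comm]
    rw [h1, natDegree_X_add_C, pow_zero]
  | succ k ih =>
    have h1 : ((G K p).comp (P K p τ (k + 1))).natDegree = (p * (p + 1)) ^ (k + 1) := by
      rw [natDegree_comp, ih, G_natDegree hp, pow_succ, mul_comm]
    have h2 : 1 < (p * (p + 1)) ^ (k + 1) :=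
      Nat.one_lt_pow (Nat.succ_ne_zero k) (by nlinarith)
    rw [P, natDegree_add_eq_left_of_natDegree_lt, h1]
    rw [h1, natDegree_X]
    exact h2

theorem G_derivative : derivative (G K p) = 1 - (X ^ p - X) ^ p := by
  have h0 : ((p : ℕ) : K[X]) = 0 := CharP.cast_eq_zero _ _
  simp [G, derivative_pow, sub_eq_add_neg]

theorem P_derivative (τ : K) (k : ℕ) : derivative (P K p τ (k + 1)) =
    (derivative (P K p τ k)) * (1 - (X ^ p - X) ^ p : K[X]).comp (P K p τ k) + 1 := by
  rw [P, derivative_add, derivative_comp, derivative_X, G_derivative]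

end

section

variable {K : Type*} [Field K] (p : ℕ) [Fact p.Prime] [CharP K p] [IsAlgClosed K]
  [Algebra (ZMod p) K]

/-- For a prime `ℓ ≠ p` there is a parameter `λ` with `f_λ^ℓ(τ) = τ + 1` and
`f_λ(τ) - τ` not in `F_p`. -/
theorem exists_param (τ : K) (hτ : Transcendental (ZMod p) τ) (l : ℕ) (hl : l.Prime)
    (hlp : l ≠ p) : ∃ x : K, (fun z => (G K p).eval z + x)^[l] τ = τ + 1 ∧
      ¬ (G K p).eval τ + x - τ ∈ V K p := by
  classical
  have hp : 2 ≤ p := (Fact.out : p.Prime).two_le
  have hl2 : 2 ≤ l := hl.two_le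
  have hlK : (l : K) ≠ 0 := by
    intro h
    rw [CharP.cast_eq_zero_iff K p l] at h
    exact hlp ((Nat.prime_dvd_prime_iff_eq Fact.out hl).mp h).symm
  -- the exceptional parameter
  obtain ⟨c, hc⟩ : ∃ c : K, c = (l : K)⁻¹ := ⟨_, rfl⟩
  have hcV : c ∈ V K p := by
    rw [mem_V, hc, inv_pow, (mem_V p _).mp (natCast_mem_V p l)]
  have hlc : (l : K) * c = 1 := by rw [hc, mul_inv_cancel₀ hlK]
  obtain ⟨x₁, hx₁⟩ : ∃ x₁ : K, x₁ = τ + c - (G K p).eval τ := ⟨_, rfl⟩
  have hF : ∀ y : K, ∀ x, ∀ v ∈ V K p, (fun z => (G K p).eval z + y) (x + v) =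
      (fun z => (G K p).eval z + y) x + v := fun y x v hv => G_translate p y x v hv
  -- the orbit of `τ` at `x₁`
  have horb : ∀ k : ℕ, (P K p τ k).eval x₁ = τ + k * c := by
    intro k
    rw [P_eval]
    have h1 : disp (fun z => (G K p).eval z + x₁) τ 1 = c := by
      simp only [disp, Function.iterate_one]
      rw [hx₁]
      ring
    have h2 := disp_mul (hF x₁) τ 1 k (by rw [h1]; exact hcV)
    rw [h1, mul_one, nsmul_eq_mul] at h2
    simp only [disp] at h2
    linear_combination h2
  -- the derivative at `x₁`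
  obtain ⟨h, hh⟩ : ∃ h : (ZMod p)[X], h = 1 - (X ^ p - X) ^ p := ⟨_, rfl⟩
  have hhdeg : h.natDegree = p * p := by
    rw [hh, natDegree_sub_eq_right_of_natDegree_lt, natDegree_pow, natDegree_frob hp]
    rw [natDegree_one, natDegree_pow, natDegree_frob hp]
    positivity
  have hder : ∀ k : ℕ, (derivative (P K p τ k)).eval x₁ =
      aeval τ ((∑ i ∈ Finset.range k, X ^ i : (ZMod p)[X]).comp h) := by
    intro k
    induction k with
    | zero => simp [P]
    | succ k ih =>
      rw [P_derivative, eval_add, eval_mul, ih, eval_comp, horb k]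
      have hV : (k : K) * c ∈ V K p := by
        rw [← nsmul_eq_mul]
        exact (V K p).nsmul_mem hcV k
      have h5 : (1 - (X ^ p - X) ^ p : K[X]).eval (τ + k * c) = aeval τ h := by
        rw [hh]
        simp only [eval_sub, eval_one, eval_pow, eval_X, map_sub, map_one, map_pow, aeval_X]
        rw [add_pow_char τ _ p, (mem_V p _).mp hV]
        ring
      rw [h5, Finset.sum_range_succ' (fun i => (X : (ZMod p)[X]) ^ i) k, pow_zero, add_comp,
        one_comp, map_add, map_one]
      congr 1
      have h6 : (∑ i ∈ Finset.range k, (X : (ZMod p)[X]) ^ (i + 1)) =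
          (∑ i ∈ Finset.range k, X ^ i) * X := by
        rw [Finset.sum_mul]
        exact Finset.sum_congr rfl fun i _ => pow_succ _ _
      rw [h6, mul_comp, X_comp, map_mul]
      simp
  have hder' : (derivative (P K p τ l)).eval x₁ ≠ 0 := by
    rw [hder]
    intro h0
    have h7 : (∑ i ∈ Finset.range l, X ^ i : (ZMod p)[X]).comp h = 0 := by
      by_contra hne
      exact hτ ⟨_, hne, h0⟩
    have h8 : (∑ i ∈ Finset.range l, X ^ i : (ZMod p)[X]).natDegree = l - 1 := by
      obtain ⟨m, rfl⟩ : ∃ m, l = m + 1 := ⟨l - 1, by omega⟩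
      rw [Finset.sum_range_succ, add_comm, natDegree_add_eq_left_of_natDegree_lt]
      · simp
      · rw [natDegree_X_pow]
        refine lt_of_le_of_lt (natDegree_sum_le_of_forall_le (n := m - 1) _ _ ?_) (by omega)
        intro i hi
        rw [natDegree_X_pow]
        have := Finset.mem_range.mp hi
        omega
    have h9 := congrArg natDegree h7
    rw [natDegree_comp, h8, hhdeg, natDegree_zero] at h9
    have h10 : 0 < (l - 1) * (p * p) := by
      have : 0 < l - 1 := by omega
      positivity
    omega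
  -- the polynomial `Q = P_ℓ - (τ + 1)` has a root other than `x₁`
  obtain ⟨Q, hQ⟩ : ∃ Q : K[X], Q = P K p τ l - C (τ + 1) := ⟨_, rfl⟩
  have hQdeg : 2 ≤ Q.natDegree := by
    obtain ⟨m, rfl⟩ : ∃ m, l = m + 2 := ⟨l - 2, by omega⟩
    rw [hQ, natDegree_sub_C, P_natDegree]
    have : 2 ≤ p * (p + 1) := by nlinarith
    calc 2 ≤ p * (p + 1) := this
      _ = (p * (p + 1)) ^ 1 := (pow_one _).symm
      _ ≤ (p * (p + 1)) ^ (m + 1) := Nat.pow_le_pow_right (by omega) (by omega)
  have hQ0 : Q ≠ 0 := by
    rintro rfl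
    simp at hQdeg
  have hQder : (derivative Q).eval x₁ ≠ 0 := by
    rw [hQ, derivative_sub, derivative_C, sub_zero]
    exact hder'
  have hroot : ∃ x, x ≠ x₁ ∧ Q.eval x = 0 := by
    by_contra hcon
    push Not at hcon
    have hall : ∀ b ∈ Q.roots, b = x₁ := by
      intro b hb
      by_contra hne
      exact hcon b hne ((mem_roots hQ0).mp hb)
    have hcard : Multiset.card Q.roots = Q.natDegree :=
      splits_iff_card_roots.mp (IsAlgClosed.splits Q)
    have hrep := Multiset.eq_replicate_card.mpr hall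
    have hmult : 1 < Q.rootMultiplicity x₁ := by
      rw [← count_roots, hrep, Multiset.count_replicate_self, hcard]
      omega
    have h11 := (one_lt_rootMultiplicity_iff_isRoot hQ0).mp hmult
    exact hQder h11.2
  obtain ⟨x, hxne, hx⟩ := hroot
  rw [hQ, eval_sub, eval_C, P_eval, sub_eq_zero] at hx
  refine ⟨x, hx, ?_⟩
  intro hV
  -- then `x = x₁`
  apply hxne
  have h12 : disp (fun z => (G K p).eval z + x) τ 1 = (G K p).eval τ + x - τ := by
    simp [disp]
  have h13 := disp_mul (hF x) τ 1 l (by rw [h12]; exact hV)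
  rw [h12, mul_one, nsmul_eq_mul] at h13
  have h14 : disp (fun z => (G K p).eval z + x) τ l = 1 := by
    simp only [disp, hx]
    ring
  rw [h14] at h13
  have h15 : (G K p).eval τ + x - τ = c := by
    have : (l : K) * ((G K p).eval τ + x - τ) = l * c := by rw [← h13, hlc]
    exact mul_left_cancel₀ hlK this
  rw [hx₁]
  linear_combination h15

theorem collision_infinite (τ : K) (hτ : Transcendental (ZMod p) τ) :
    (collision (G K p) τ (τ + 1) τ).Infinite := by
  have hp : 2 ≤ p := (Fact.out : p.Prime).two_le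
  have hF : ∀ y : K, ∀ x, ∀ v ∈ V K p, (fun z => (G K p).eval z + y) (x + v) =
      (fun z => (G K p).eval z + y) x + v := fun y x v hv => G_translate p y x v hv
  have h1V : (1 : K) ∈ V K p := by
    rw [mem_V, one_pow]
  have hp0 : ((p : ℕ) : K) = 0 := CharP.cast_eq_zero _ _
  have hex : ∀ l : ℕ, ∃ x : K, l.Prime → l ≠ p →
      (fun z => (G K p).eval z + x)^[l] τ = τ + 1 ∧ ¬ (G K p).eval τ + x - τ ∈ V K p := by
    intro l
    by_cases hl : l.Prime ∧ l ≠ p
    · obtain ⟨x, hx⟩ := exists_param p τ hτ l hl.1 hl.2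
      exact ⟨x, fun _ _ => hx⟩
    · exact ⟨0, fun h1 h2 => absurd ⟨h1, h2⟩ hl⟩
  choose x hx using hex
  have hinf : {l : ℕ | l.Prime ∧ l ≠ p}.Infinite := by
    have h1 : {l : ℕ | l.Prime ∧ l ≠ p} = {l : ℕ | l.Prime} \ {p} := by
      ext l
      simp
    rw [h1]
    exact Nat.infinite_setOf_prime.diff (Set.finite_singleton p)
  refine Set.infinite_of_injOn_mapsTo (f := x) ?_ ?_ hinf
  · rintro l ⟨hl, hlp⟩ l' ⟨hl', hlp'⟩ heq
    by_contra hne
    obtain ⟨h1, h2⟩ := hx l hl hlp
    obtain ⟨h3, -⟩ := hx l' hl' hlp'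
    rw [← heq] at h3
    have h4 : disp (fun z => (G K p).eval z + x l) τ l = 1 := by
      simp only [disp, h1]
      ring
    have h5 : disp (fun z => (G K p).eval z + x l) τ l' = 1 := by
      simp only [disp, h3]
      ring
    have h6 := disp_gcd (hF (x l)) τ l l' (by rw [h4]; exact h1V) (by rw [h5]; exact h1V)
    rw [(Nat.coprime_primes hl hl').mpr hne] at h6
    apply h2
    simpa [disp] using h6
  · rintro l ⟨hl, hlp⟩
    obtain ⟨h1, -⟩ := hx l hl hlp
    have h4 : disp (fun z => (G K p).eval z + x l) τ l = 1 := by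
      simp only [disp, h1]
      ring
    have hmul : ∀ j : ℕ, (fun z => (G K p).eval z + x l)^[j * l] τ = τ + j := by
      intro j
      have := disp_mul (hF (x l)) τ l j (by rw [h4]; exact h1V)
      rw [h4, nsmul_eq_mul, mul_one] at this
      simp only [disp] at this
      linear_combination this
    have hl0 : 0 < l := hl.pos
    refine ⟨p * l, (p - 1) * l, ?_, ?_, ?_, ?_⟩
    · exact Nat.mul_pos (by omega) hl0
    · exact Nat.mul_pos (by omega) hl0
    · rw [hmul, hp0, add_zero]
    · rw [iterate_add (hF (x l)) _ τ 1 h1V, hmul, Nat.cast_sub (by omega), hp0]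
      simp

end

universe u

/-- For every prime `p` there is a non-additive polynomial `f` over `F_p`, of degree at least `2`
and without constant term, such that for every field `L` of characteristic `p` and every `t` in `L`
transcendental over `F_p` the set `C_f(t, t + 1; t)` in the algebraic closure of `L` is infinite
although `f(t) ≠ f(t + 1)`. -/
theorem result (p : ℕ) [Fact p.Prime] :
    ∃ f : (ZMod p)[X], 2 ≤ f.natDegree ∧ f.eval 0 = 0 ∧
      ¬ IsAdditive (f.map (algebraMap (ZMod p) (AlgebraicClosure (ZMod p)))) ∧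
      ∀ (L : Type u) [Field L] [Algebra (ZMod p) L] (t : L), Transcendental (ZMod p) t →
        aeval t f ≠ aeval (t + 1) f ∧
        (collision (f.map (algebraMap (ZMod p) (AlgebraicClosure L)))
          (algebraMap L (AlgebraicClosure L) t) (algebraMap L (AlgebraicClosure L) (t + 1))
          (algebraMap L (AlgebraicClosure L) t)).Infinite := by
  have hp : 2 ≤ p := (Fact.out : p.Prime).two_le
  refine ⟨G (ZMod p) p, ?_, ?_, ?_, ?_⟩
  · rw [G_natDegree hp]
    nlinarith
  · rw [G_eval, zero_pow (by omega)]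
    simp
  · have : CharP (AlgebraicClosure (ZMod p)) p :=
      charP_of_injective_algebraMap (algebraMap (ZMod p) (AlgebraicClosure (ZMod p))).injective p
    rw [G_map]
    exact G_not_additive p
  · intro L _ _ t ht
    have hL : CharP L p :=
      charP_of_injective_algebraMap (algebraMap (ZMod p) L).injective p
    have hLbar : CharP (AlgebraicClosure L) p :=
      charP_of_injective_algebraMap (algebraMap (ZMod p) (AlgebraicClosure L)).injective p
    constructor
    · have h1 : ∀ s : L, aeval s (G (ZMod p) p) = (G L p).eval s := by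
        intro s
        rw [aeval_def, ← eval_map, G_map]
      rw [h1, h1]
      have h2 := G_translate p (0 : L) t 1 (by rw [mem_V, one_pow])
      rw [add_zero, add_zero] at h2
      rw [h2]
      simp
    · rw [G_map, map_add, map_one]
      refine collision_infinite p _ ?_
      exact (transcendental_algebraMap_iff (algebraMap L (AlgebraicClosure L)).injective).mpr ht

end Pool.Agent.Results.MP_a5410e_nt.InfiniteCollision
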